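import Mathlib

/-!
# Homogeneous polynomials on the sphere (MP_d74254_an): basic tools
-/

namespace Pool.Agent.Helper456.PL

open MvPolynomial Finset

variable {n : ℕ}

/-- value of the homogeneous polynomial at a multiple -/
lemma eval_mul {m : ℕ} {u : MvPolynomial (Fin n) ℝ} (hu : u.IsHomogeneous m) (c : ℝ)
    (x : Fin n → ℝ) : eval (fun i => c * x i) u = c ^ m * eval x u := by
  rw [eval_eq, eval_eq, Finset.mul_sum]
  refine Finset.sum_congr rfl ?_
  intro d hd
  have hdeg : ∑ i ∈ d.support, d i = m := by
    have := hu (mem_support_iff.mp hd)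
    rw [← this, Finsupp.weight_apply, Finsupp.sum]
    simp
  simp only [mul_pow]
  rw [Finset.prod_mul_distrib, Finset.prod_pow_eq_pow_sum, hdeg]
  ring

lemma pderiv_X' (a b : Fin n) :
    pderiv a (X b : MvPolynomial (Fin n) ℝ) = C (if a = b then 1 else 0) := by
  by_cases h : a = b
  · subst h; simp
  · rw [pderiv_X_of_ne (Ne.symm h)]; simp [h]

lemma pderiv_comm' (i j : Fin n) (u : MvPolynomial (Fin n) ℝ) :
    pderiv i (pderiv j u) = pderiv j (pderiv i u) := by
  induction u using MvPolynomial.induction_on with
  | C a => simp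
  | add p q hp hq => simp only [map_add, hp, hq]
  | mul_X p k hp =>
    simp only [pderiv_mul, map_add, pderiv_X', pderiv_C, hp]
    ring

/-- chain rule -/
lemma hasDerivAt_eval (u : MvPolynomial (Fin n) ℝ) {η : ℝ → Fin n → ℝ} {η' : Fin n → ℝ} {s : ℝ}
    (hη : ∀ i, HasDerivAt (fun t => η t i) (η' i) s) :
    HasDerivAt (fun t => eval (η t) u) (∑ i, η' i * eval (η s) (pderiv i u)) s := by
  induction u using MvPolynomial.induction_on with
  | C a =>
    simp only [eval_C, pderiv_C, map_zero, mul_zero, Finset.sum_const_zero]
    exact hasDerivAt_const _ _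
  | add p q hp hq =>
    have e : (∑ i, η' i * eval (η s) (pderiv i (p + q)))
        = (∑ i, η' i * eval (η s) (pderiv i p)) + ∑ i, η' i * eval (η s) (pderiv i q) := by
      rw [← Finset.sum_add_distrib]
      refine Finset.sum_congr rfl fun i _ => ?_
      rw [map_add, map_add]; ring
    rw [e]
    simp only [map_add]
    exact hp.add hq
  | mul_X p j hp =>
    have e : (∑ i, η' i * eval (η s) (pderiv i (p * X j)))
        = (∑ i, η' i * eval (η s) (pderiv i p)) * η s j + eval (η s) p * η' j := by
      rw [Finset.sum_mul]
      have : eval (η s) p * η' j = ∑ i, η' i * (eval (η s) p * (if i = j then 1 else 0)) := by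
        rw [Finset.sum_eq_single j]
        · simp; ring
        · intro b _ hb; simp [hb]
        · intro h; exact absurd (mem_univ _) h
      rw [this, ← Finset.sum_add_distrib]
      refine Finset.sum_congr rfl fun i _ => ?_
      rw [pderiv_mul, map_add, map_mul, map_mul, eval_X]
      by_cases hij : i = j
      · subst hij
        rw [pderiv_X_self]; simp; ring
      · rw [pderiv_X_of_ne (Ne.symm hij)]; simp [hij]; ring
    rw [e]
    simp only [map_mul, eval_X]
    exact hp.mul (hη j)

/-- restriction to a line, as a polynomial -/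
noncomputable def line (x e : Fin n → ℝ) (u : MvPolynomial (Fin n) ℝ) : Polynomial ℝ :=
  aeval (fun i => Polynomial.C (x i) + Polynomial.C (e i) * Polynomial.X) u

lemma eval_line (x e : Fin n → ℝ) (u : MvPolynomial (Fin n) ℝ) (t : ℝ) :
    (line x e u).eval t = eval (fun i => x i + e i * t) u := by
  unfold line
  rw [← Polynomial.coe_evalRingHom, aeval_def, MvPolynomial.hom_eval₂, ← MvPolynomial.eval₂_id]
  congr 1
  · ext r
    simp
  · ext i
    simp

lemma natDegree_line {m : ℕ} (x e : Fin n → ℝ) {u : MvPolynomial (Fin n) ℝ}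
    (hu : u.IsHomogeneous m) : (line x e u).natDegree ≤ m := by
  have h := MvPolynomial.aeval_natDegree_le (m := m) (n := 1) u hu.totalDegree_le
    (fun i => Polynomial.C (x i) + Polynomial.C (e i) * Polynomial.X) (by
      intro i
      refine (Polynomial.natDegree_add_le _ _).trans ?_
      refine max_le ?_ ?_
      · rw [Polynomial.natDegree_C]; omega
      · refine Polynomial.natDegree_mul_le.trans ?_
        rw [Polynomial.natDegree_C, Polynomial.natDegree_X])
  rw [mul_one] at h
  exact h

lemma derivative_line (x e : Fin n → ℝ) (u : MvPolynomial (Fin n) ℝ) :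
    Polynomial.derivative (line x e u) = ∑ i, Polynomial.C (e i) * line x e (pderiv i u) := by
  apply Polynomial.funext
  intro t
  have h1 : HasDerivAt (fun t => (line x e u).eval t)
      ((Polynomial.derivative (line x e u)).eval t) t := (line x e u).hasDerivAt t
  have h2 : HasDerivAt (fun t => eval (fun i => x i + e i * t) u)
      (∑ i, e i * eval (fun i => x i + e i * t) (pderiv i u)) t := by
    refine hasDerivAt_eval (η := fun t i => x i + e i * t) u ?_
    intro i
    have := ((hasDerivAt_id t).const_mul (e i)).const_add (x i)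
    simpa using this
  have h3 : (fun t => (line x e u).eval t) = fun t => eval (fun i => x i + e i * t) u := by
    funext t; exact eval_line x e u t
  rw [h3] at h1
  rw [h1.unique h2, Polynomial.eval_finsetSum]
  refine Finset.sum_congr rfl fun i _ => ?_
  rw [Polynomial.eval_mul, Polynomial.eval_C, eval_line]

lemma line_coeff_zero (x e : Fin n → ℝ) (u : MvPolynomial (Fin n) ℝ) :
    (line x e u).coeff 0 = eval x u := by
  rw [Polynomial.coeff_zero_eq_eval_zero, eval_line]
  congr 2
  funext i; ring

lemma line_coeff_one (x e : Fin n → ℝ) (u : MvPolynomial (Fin n) ℝ) :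
    (line x e u).coeff 1 = ∑ i, e i * eval x (pderiv i u) := by
  have h := Polynomial.coeff_derivative (line x e u) 0
  rw [derivative_line] at h
  simp only [Polynomial.finsetSum_coeff, Polynomial.coeff_C_mul, line_coeff_zero] at h
  rw [h]; simp

lemma line_coeff_two (x e : Fin n → ℝ) (u : MvPolynomial (Fin n) ℝ) :
    2 * (line x e u).coeff 2 = ∑ i, ∑ j, e i * e j * eval x (pderiv i (pderiv j u)) := by
  have h := Polynomial.coeff_derivative (line x e u) 1
  rw [derivative_line] at h
  simp only [Polynomial.finsetSum_coeff, Polynomial.coeff_C_mul, line_coeff_one] at h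
  have h2 : (line x e u).coeff (1 + 1) * ((1 : ℕ) + 1 : ℝ) = 2 * (line x e u).coeff 2 := by
    push_cast; ring
  rw [← h2, ← h]
  refine Finset.sum_congr rfl fun i _ => ?_
  rw [Finset.mul_sum]
  refine Finset.sum_congr rfl fun j _ => ?_
  rw [pderiv_comm' i j]
  ring

end Pool.Agent.Helper456.PL
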