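import Pool.Agent.Helper456.PL.Basic

/-!
# The second derivative at a point of maximal modulus (MP_d74254_an)
-/

namespace Pool.Agent.Helper456.PL

open MvPolynomial Finset

variable {n : ℕ}

/-- restriction to the plane spanned by `η` and `e` -/
lemma eval_plane {m : ℕ} {u : MvPolynomial (Fin n) ℝ} (hu : u.IsHomogeneous m)
    (η e : Fin n → ℝ) (x y : ℝ) :
    eval (fun i => x * η i + y * e i) u
      = ∑ k ∈ range (m + 1), (line η e u).coeff k * x ^ (m - k) * y ^ k := by
  have hcont1 : Continuous (fun x : ℝ => eval (fun i => x * η i + y * e i) u) := by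
    refine (MvPolynomial.continuous_eval u).comp ?_
    fun_prop
  have hcont2 : Continuous (fun x : ℝ =>
      ∑ k ∈ range (m + 1), (line η e u).coeff k * x ^ (m - k) * y ^ k) := by fun_prop
  have hEq : Set.EqOn (fun x : ℝ => eval (fun i => x * η i + y * e i) u)
      (fun x : ℝ => ∑ k ∈ range (m + 1), (line η e u).coeff k * x ^ (m - k) * y ^ k)
      ({0}ᶜ : Set ℝ) := by
    intro x hx
    have hx0 : x ≠ 0 := by simpa using hx
    show eval (fun i => x * η i + y * e i) u = _
    have h1 : (fun i => x * η i + y * e i) = fun i => x * (η i + e i * (y / x)) := by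
      funext i
      field_simp
    rw [h1, eval_mul hu, ← eval_line,
      Polynomial.eval_eq_sum_range' (Nat.lt_succ_of_le (natDegree_line η e hu)), Finset.mul_sum]
    refine Finset.sum_congr rfl fun k hk => ?_
    rw [Finset.mem_range] at hk
    have h2 : x ^ m = x ^ (m - k) * x ^ k := by rw [← pow_add]; congr 1; omega
    rw [h2, div_pow]
    field_simp
  exact congrFun (hcont1.ext_on (dense_compl_singleton 0) hcont2 hEq) x

/-- the even part, as a polynomial in the cosine -/
noncomputable def evenPart (m : ℕ) (c : ℝ) (a : ℕ → ℝ) : Polynomial ℝ :=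
  ∑ k ∈ range (m + 1), if Even k then
    Polynomial.C (a k / c) * Polynomial.X ^ (m - k) * (1 - Polynomial.X ^ 2) ^ (k / 2) else 0

lemma eval_evenPart {m : ℕ} {u : MvPolynomial (Fin n) ℝ} (hu : u.IsHomogeneous m)
    (η e : Fin n → ℝ) {c : ℝ} (hc : c ≠ 0) (x y : ℝ) (hxy : x ^ 2 + y ^ 2 = 1) :
    (evenPart m c (fun k => (line η e u).coeff k)).eval x
      = (eval (fun i => x * η i + y * e i) u + eval (fun i => x * η i + (-y) * e i) u)
        / (2 * c) := by
  rw [eval_plane hu, eval_plane hu, ← Finset.sum_add_distrib, Finset.sum_div, evenPart,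
    Polynomial.eval_finsetSum]
  refine Finset.sum_congr rfl fun k _ => ?_
  by_cases hk : Even k
  · rw [if_pos hk]
    obtain ⟨j, rfl⟩ := hk
    have h1 : (-y) ^ (j + j) = y ^ (j + j) := by rw [neg_pow, Even.neg_one_pow ⟨j, rfl⟩, one_mul]
    have h2 : (j + j) / 2 = j := by omega
    have h3 : y ^ (j + j) = (1 - x ^ 2) ^ j := by
      have : (1 - x ^ 2) = y ^ 2 := by linarith
      rw [this, ← pow_mul]; congr 1; ring
    rw [h1, h2, h3]
    simp only [Polynomial.eval_mul, Polynomial.eval_C, Polynomial.eval_pow, Polynomial.eval_X,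
      Polynomial.eval_sub, Polynomial.eval_one]
    field_simp
    ring
  · rw [if_neg hk]
    have h1 : (-y) ^ k = - y ^ k := by
      rw [Nat.not_even_iff_odd] at hk
      exact hk.neg_pow y
    rw [h1]
    simp

lemma degree_evenPart {m : ℕ} {c : ℝ} {a : ℕ → ℝ} : (evenPart m c a).degree ≤ m := by
  apply Polynomial.degree_le_of_natDegree_le
  unfold evenPart
  apply Polynomial.natDegree_sum_le_of_forall_le
  intro k hk
  rw [Finset.mem_range] at hk
  split_ifs with h
  · refine Polynomial.natDegree_mul_le.trans ?_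
    have h1 : (Polynomial.C (a k / c) * Polynomial.X ^ (m - k) : Polynomial ℝ).natDegree
        ≤ m - k := by
      refine Polynomial.natDegree_mul_le.trans ?_
      rw [Polynomial.natDegree_C, zero_add]
      exact Polynomial.natDegree_X_pow_le _
    have h2 : ((1 - Polynomial.X ^ 2 : Polynomial ℝ) ^ (k / 2)).natDegree ≤ (k / 2) * 2 := by
      refine Polynomial.natDegree_pow_le.trans ?_
      refine Nat.mul_le_mul_left _ ?_
      refine (Polynomial.natDegree_sub_le _ _).trans ?_
      refine max_le ?_ ?_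
      · rw [Polynomial.natDegree_one]; omega
      · exact Polynomial.natDegree_X_pow_le _
    omega
  · simp

lemma derivative_evenPart {m : ℕ} (hm : 2 ≤ m) {c : ℝ} {a : ℕ → ℝ} :
    (Polynomial.derivative (evenPart m c a)).eval 1 = m * (a 0 / c) - 2 * (a 2 / c) := by
  unfold evenPart
  rw [Polynomial.derivative_sum, Polynomial.eval_finsetSum]
  have hterm : ∀ k ∈ range (m + 1), (Polynomial.derivative (if Even k then
      Polynomial.C (a k / c) * Polynomial.X ^ (m - k) * (1 - Polynomial.X ^ 2) ^ (k / 2) else 0 :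
        Polynomial ℝ)).eval 1
      = (if k = 0 then m * (a 0 / c) else 0) + (if k = 2 then -(2 * (a 2 / c)) else 0) := by
    intro k _
    by_cases hk : Even k
    · rw [if_pos hk]
      obtain ⟨j, rfl⟩ := hk
      have h2 : (j + j) / 2 = j := by omega
      rw [h2]
      match j with
      | 0 => simp [Polynomial.derivative_X_pow]; ring
      | 1 => simp; ring
      | j + 2 =>
        have e1 : ¬ (j + 2 + (j + 2) = 0) := by omega
        have e2 : ¬ (j + 2 + (j + 2) = 2) := by omega
        rw [if_neg e1, if_neg e2]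
        simp [Polynomial.derivative_mul, Polynomial.derivative_pow]
    · rw [if_neg hk]
      have e1 : ¬ (k = 0) := by rintro rfl; simp at hk
      have e2 : ¬ (k = 2) := by rintro rfl; simp at hk
      rw [if_neg e1, if_neg e2]
      simp
  rw [Finset.sum_congr rfl hterm, Finset.sum_add_distrib, Finset.sum_ite_eq' (range (m + 1)) 0,
    Finset.sum_ite_eq' (range (m + 1)) 2]
  rw [if_pos (by simp), if_pos (by rw [Finset.mem_range]; omega)]
  ring

lemma T_deriv_one (m : ℕ) :
    (Polynomial.derivative (Polynomial.Chebyshev.T ℝ (m : ℤ))).eval 1 = (m : ℝ) ^ 2 := by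
  rw [Polynomial.Chebyshev.T_derivative_eq_U, Polynomial.eval_mul, Polynomial.Chebyshev.U_eval_one]
  simp
  ring

section

variable {m : ℕ} {u : MvPolynomial (Fin n) ℝ} (hu : u.IsHomogeneous m) {η e : Fin n → ℝ} {c : ℝ}

omit hu in
lemma sphere_comb (hη : ∑ i, η i ^ 2 = 1) (he : ∑ i, e i ^ 2 = 1) (hηe : ∑ i, η i * e i = 0)
    (x y : ℝ) (hxy : x ^ 2 + y ^ 2 = 1) : ∑ i, (x * η i + y * e i) ^ 2 = 1 := by
  have : ∑ i, (x * η i + y * e i) ^ 2
      = x ^ 2 * ∑ i, η i ^ 2 + 2 * x * y * ∑ i, η i * e i + y ^ 2 * ∑ i, e i ^ 2 := by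
    rw [Finset.mul_sum, Finset.mul_sum, Finset.mul_sum, ← Finset.sum_add_distrib,
      ← Finset.sum_add_distrib]
    refine Finset.sum_congr rfl fun i _ => ?_
    ring
  rw [this, hη, he, hηe]
  linarith

include hu in
lemma evenPart_bound (hη : ∑ i, η i ^ 2 = 1) (he : ∑ i, e i ^ 2 = 1) (hηe : ∑ i, η i * e i = 0)
    (hc : c ≠ 0) (hmax : ∀ x : Fin n → ℝ, ∑ i, x i ^ 2 = 1 → |eval x u| ≤ |c|) :
    ∀ x ∈ Set.Icc (-1 : ℝ) 1,
      |(evenPart m c (fun k => (line η e u).coeff k)).eval x| ≤ 1 := by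
  intro x hx
  have hx2 : x ^ 2 ≤ 1 := by
    rw [sq_le_one_iff_abs_le_one]
    exact abs_le.mpr ⟨hx.1, hx.2⟩
  have hxy : x ^ 2 + (Real.sqrt (1 - x ^ 2)) ^ 2 = 1 := by
    rw [Real.sq_sqrt (by linarith)]; ring
  rw [eval_evenPart hu η e hc x _ hxy, abs_div, abs_mul, abs_two]
  have h1 := hmax _ (sphere_comb hη he hηe x _ hxy)
  have h2 := hmax _ (sphere_comb hη he hηe x (-(Real.sqrt (1 - x ^ 2))) (by rw [neg_sq]; exact hxy))
  have h3 := abs_add_le (eval (fun i => x * η i + Real.sqrt (1 - x ^ 2) * e i) u)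
    (eval (fun i => x * η i + (-Real.sqrt (1 - x ^ 2)) * e i) u)
  have hcpos : 0 < |c| := abs_pos.mpr hc
  rw [div_le_one (by positivity)]
  linarith

include hu in
/-- Markov/Bernstein at the maximum -/
theorem key_ineq (hm : 2 ≤ m) (hη : ∑ i, η i ^ 2 = 1) (he : ∑ i, e i ^ 2 = 1)
    (hηe : ∑ i, η i * e i = 0) (hc : c ≠ 0) (hcη : eval η u = c)
    (hmax : ∀ x : Fin n → ℝ, ∑ i, x i ^ 2 = 1 → |eval x u| ≤ |c|) :
    -(∑ i, ∑ j, e i * e j * eval η (pderiv i (pderiv j u))) / c ≤ m * (m - 1) := by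
  have h := Polynomial.Chebyshev.eval_iterate_derivative_le_of_forall_abs_le_one
    (n := m) (k := 1) (x := 1) le_rfl
    (degree_evenPart (m := m) (c := c) (a := fun k => (line η e u).coeff k))
    (evenPart_bound hu hη he hηe hc hmax)
  rw [Function.iterate_one, T_deriv_one, derivative_evenPart hm, line_coeff_zero, hcη,
    div_self hc, mul_one] at h
  have h2 := line_coeff_two η e u
  rw [← h2]
  have h3 : -(2 * (line η e u).coeff 2) / c = -(2 * ((line η e u).coeff 2 / c)) := by ring
  rw [h3]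
  have h4 : (m : ℝ) * (m - 1) = m ^ 2 - m := by ring
  rw [h4]
  linarith

include hu in
/-- the equality case -/
theorem key_eq (hm : 2 ≤ m) (hη : ∑ i, η i ^ 2 = 1) (he : ∑ i, e i ^ 2 = 1)
    (hηe : ∑ i, η i * e i = 0) (hc : c ≠ 0) (hcη : eval η u = c)
    (hmax : ∀ x : Fin n → ℝ, ∑ i, x i ^ 2 = 1 → |eval x u| ≤ |c|)
    (heq : ∑ i, ∑ j, e i * e j * eval η (pderiv i (pderiv j u)) = -(m * (m - 1) * c)) :
    eval (fun i => Real.cos (Real.pi / m) * η i + Real.sin (Real.pi / m) * e i) u = -c := by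
  have hiff := Polynomial.Chebyshev.eval_iterate_derivative_eq_iff_of_bounded
    (n := m) (k := 1) (x := 1) one_pos (by omega) le_rfl
    (degree_evenPart (m := m) (c := c) (a := fun k => (line η e u).coeff k))
    (evenPart_bound hu hη he hηe hc hmax)
  have h2 := line_coeff_two η e u
  rw [heq] at h2
  have hP : evenPart m c (fun k => (line η e u).coeff k) = Polynomial.Chebyshev.T ℝ (m : ℤ) := by
    rw [← hiff, Function.iterate_one, T_deriv_one, derivative_evenPart hm, line_coeff_zero, hcη,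
      div_self hc, mul_one]
    have h3 : 2 * ((line η e u).coeff 2 / c) = (2 * (line η e u).coeff 2) / c := by ring
    rw [h3, h2]
    field_simp
    ring
  have hm0 : (m : ℝ) ≠ 0 := by
    have : (2 : ℝ) ≤ m := by exact_mod_cast hm
    linarith
  have hcs : Real.cos (Real.pi / m) ^ 2 + Real.sin (Real.pi / m) ^ 2 = 1 :=
    Real.cos_sq_add_sin_sq _
  have h4 := eval_evenPart hu η e hc (Real.cos (Real.pi / m)) (Real.sin (Real.pi / m)) hcs
  rw [hP, Polynomial.Chebyshev.T_real_cos] at h4
  have h5 : ((m : ℤ) : ℝ) * (Real.pi / m) = Real.pi := by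
    push_cast
    field_simp
  rw [h5, Real.cos_pi] at h4
  have b1 := hmax _ (sphere_comb hη he hηe _ _ hcs)
  have b2 := hmax _ (sphere_comb hη he hηe (Real.cos (Real.pi / m)) (-(Real.sin (Real.pi / m)))
    (by rw [neg_sq]; exact hcs))
  set A := eval (fun i => Real.cos (Real.pi / m) * η i + Real.sin (Real.pi / m) * e i) u with hA
  set B := eval (fun i => Real.cos (Real.pi / m) * η i + (-Real.sin (Real.pi / m)) * e i) u with hB
  have h6 : A + B = -(2 * c) := by
    rw [eq_div_iff (by simpa using hc)] at h4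
    linarith
  rw [abs_le] at b1 b2
  rcases lt_or_gt_of_ne hc with hneg | hpos
  · rw [abs_of_neg hneg] at b1 b2
    linarith [b1.1, b1.2, b2.1, b2.2]
  · rw [abs_of_pos hpos] at b1 b2
    linarith [b1.1, b1.2, b2.1, b2.2]

end

end Pool.Agent.Helper456.PL
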