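import Pool.Agent.Helper456.PL.Key

/-!
# No polynomial solutions for `p ≥ n` (MP_d74254_an)
-/

namespace Pool.Agent.Helper456.PL

open MvPolynomial Finset

variable {n : ℕ}

/-- the p-Laplace identity at the point `x` -/
def PLap (p : ℝ) (u : MvPolynomial (Fin n) ℝ) (x : Fin n → ℝ) : Prop :=
  (∑ i, (eval x (pderiv i u)) ^ 2) * (∑ i, eval x (pderiv i (pderiv i u))) +
    (p - 2) * ∑ i, ∑ j, eval x (pderiv i u) * eval x (pderiv j u) *
      eval x (pderiv i (pderiv j u)) = 0

section

variable {m : ℕ} {u : MvPolynomial (Fin n) ℝ}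

lemma euler (hu : u.IsHomogeneous m) (x : Fin n → ℝ) :
    ∑ i, x i * eval x (pderiv i u) = m * eval x u := by
  have h := congrArg (eval x) hu.sum_X_mul_pderiv
  simpa using h

lemma euler2 (hu : u.IsHomogeneous m) (hm : 1 ≤ m) (x : Fin n → ℝ) (j : Fin n) :
    ∑ i, x i * eval x (pderiv i (pderiv j u)) = (m - 1) * eval x (pderiv j u) := by
  have h := euler (hu.pderiv (i := j)) x
  rw [h, Nat.cast_sub hm]
  simp

/-- bound everywhere from the bound on the sphere -/
lemma bound_all (hu : u.IsHomogeneous m) (hm : 1 ≤ m) {c : ℝ}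
    (hmax : ∀ x : Fin n → ℝ, ∑ i, x i ^ 2 = 1 → |eval x u| ≤ |c|) (x : Fin n → ℝ) :
    (eval x u) ^ 2 ≤ c ^ 2 * (∑ i, x i ^ 2) ^ m := by
  have hs0 : 0 ≤ ∑ i, x i ^ 2 := Finset.sum_nonneg fun i _ => sq_nonneg _
  rcases hs0.eq_or_lt with h0 | hpos
  · have hx : x = fun i => (0 : ℝ) * x i := by
      funext i
      have := (Finset.sum_eq_zero_iff_of_nonneg (fun i _ => sq_nonneg (x i))).mp h0.symm i
        (mem_univ i)
      rw [zero_mul]
      exact pow_eq_zero_iff (two_ne_zero) |>.mp this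
    rw [hx, eval_mul hu, zero_pow (by omega)]
    simp
    positivity
  · set r := Real.sqrt (∑ i, x i ^ 2) with hr
    have hr0 : 0 < r := Real.sqrt_pos.mpr hpos
    have hr2 : r ^ 2 = ∑ i, x i ^ 2 := Real.sq_sqrt hs0
    have hx : x = fun i => r * (x i / r) := by
      funext i
      field_simp
    have hy : ∑ i, (x i / r) ^ 2 = 1 := by
      simp only [div_pow]
      rw [← Finset.sum_div, ← hr2, div_self (by positivity)]
    have h1 := hmax _ hy
    have h2 : (eval (fun i => x i / r) u) ^ 2 ≤ c ^ 2 := sq_le_sq.mpr h1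
    rw [← hr2]
    conv_lhs => rw [hx]
    rw [eval_mul hu, mul_pow]
    calc (r ^ m) ^ 2 * (eval (fun i => x i / r) u) ^ 2 ≤ (r ^ m) ^ 2 * c ^ 2 := by gcongr
      _ = c ^ 2 * (r ^ 2) ^ m := by ring

/-- the gradient at a point of maximal modulus -/
lemma grad_max (hu : u.IsHomogeneous m) (hm : 1 ≤ m) {c : ℝ} (hc : c ≠ 0)
    (hmax : ∀ x : Fin n → ℝ, ∑ i, x i ^ 2 = 1 → |eval x u| ≤ |c|) {η : Fin n → ℝ}
    (hη : ∑ i, η i ^ 2 = 1) (hcη : eval η u = c) (i : Fin n) :
    eval η (pderiv i u) = m * c * η i := by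
  set G : MvPolynomial (Fin n) ℝ := C (c ^ 2) * (∑ j, X j ^ 2) ^ m - u ^ 2 with hG
  have hGnn : ∀ x, 0 ≤ eval x G := by
    intro x
    rw [hG]
    simp only [map_sub, map_mul, eval_C, map_pow, map_sum, eval_X]
    have := bound_all hu hm hmax x
    linarith
  have hG0 : eval η G = 0 := by
    rw [hG]
    simp only [map_sub, map_mul, eval_C, map_pow, map_sum, eval_X]
    rw [hη, hcη]; simp
  -- derivative in the direction `i`
  have hder : HasDerivAt (fun t : ℝ => eval (fun j => η j + (if j = i then 1 else 0) * t) G)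
      (∑ j, (if j = i then (1 : ℝ) else 0) *
        eval (fun j => η j + (if j = i then 1 else 0) * (0 : ℝ)) (pderiv j G)) 0 := by
    refine hasDerivAt_eval (η := fun t j => η j + (if j = i then 1 else 0) * t) G ?_
    intro j
    have := ((hasDerivAt_id (0 : ℝ)).const_mul (if j = i then (1 : ℝ) else 0)).const_add (η j)
    simpa using this
  have hpt : (fun j => η j + (if j = i then 1 else 0) * (0 : ℝ)) = η := by
    funext j; simp
  have hmin : IsLocalMin (fun t : ℝ => eval (fun j => η j + (if j = i then 1 else 0) * t) G) 0 := by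
    refine Filter.Eventually.of_forall ?_
    intro t
    show eval (fun j => η j + (if j = i then 1 else 0) * (0 : ℝ)) G ≤ _
    rw [hpt, hG0]
    exact hGnn _
  have h0 := hmin.hasDerivAt_eq_zero hder
  rw [hpt, Finset.sum_eq_single i (by intro b _ hb; simp [hb]) (by simp)] at h0
  rw [if_pos rfl, one_mul] at h0
  have hpd : pderiv i G = C (c ^ 2) * ((m : MvPolynomial (Fin n) ℝ) * (∑ j, X j ^ 2) ^ (m - 1)
      * (2 * X i)) - 2 * u * pderiv i u := by
    rw [hG, map_sub, pderiv_C_mul, pderiv_pow, pderiv_pow, map_sum]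
    have hs : ∑ j, pderiv i ((X j : MvPolynomial (Fin n) ℝ) ^ 2) = 2 * X i := by
      rw [Finset.sum_eq_single i]
      · rw [pderiv_pow, pderiv_X_self]; simp
      · intro b _ hb
        rw [pderiv_pow, pderiv_X_of_ne hb]; simp
      · simp
    rw [hs]
    simp
  rw [hpd] at h0
  simp only [map_sub, map_mul, eval_C, map_pow, map_sum, eval_X, map_natCast, map_ofNat] at h0
  rw [hη, one_pow, hcη] at h0
  have : c * (2 * (eval η (pderiv i u) - m * c * η i)) = 0 := by linarith
  have h3 := (mul_eq_zero.mp this).resolve_left hc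
  linarith

/-- the Hessian form at `η` -/
noncomputable def hess (u : MvPolynomial (Fin n) ℝ) (η : Fin n → ℝ) : LinearMap.BilinForm ℝ (Fin n → ℝ) :=
  Matrix.toBilin' (Matrix.of fun i j => eval η (pderiv i (pderiv j u)))

lemma hess_apply (η v w : Fin n → ℝ) :
    hess u η v w = ∑ i, ∑ j, v i * eval η (pderiv i (pderiv j u)) * w j := by
  unfold hess
  rw [Matrix.toBilin'_apply]
  rfl

lemma hess_symm (η v w : Fin n → ℝ) : hess u η v w = hess u η w v := by
  rw [hess_apply, hess_apply, Finset.sum_comm]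
  refine Finset.sum_congr rfl fun i _ => Finset.sum_congr rfl fun j _ => ?_
  rw [pderiv_comm' i j]; ring

lemma hess_self (η v : Fin n → ℝ) :
    hess u η v v = ∑ i, ∑ j, v i * v j * eval η (pderiv i (pderiv j u)) := by
  rw [hess_apply]
  refine Finset.sum_congr rfl fun i _ => Finset.sum_congr rfl fun j _ => ?_
  ring

lemma hess_single (η : Fin n → ℝ) (i : Fin n) (w : Fin n → ℝ) :
    hess u η (Pi.single i 1) w = ∑ j, eval η (pderiv i (pderiv j u)) * w j := by
  rw [hess_apply, Finset.sum_eq_single i]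
  · simp
  · intro b _ hb; simp [Pi.single_eq_of_ne hb]
  · simp

/-- general form of the key inequality -/
lemma key_ineq' (hu : u.IsHomogeneous m) (hm : 2 ≤ m) {c : ℝ} (hc : c ≠ 0)
    (hmax : ∀ x : Fin n → ℝ, ∑ i, x i ^ 2 = 1 → |eval x u| ≤ |c|) {η : Fin n → ℝ}
    (hη : ∑ i, η i ^ 2 = 1) (hcη : eval η u = c) (v : Fin n → ℝ) (hv : ∑ i, η i * v i = 0) :
    -(hess u η v v) / c ≤ m * (m - 1) * ∑ i, v i ^ 2 := by
  have hs0 : 0 ≤ ∑ i, v i ^ 2 := Finset.sum_nonneg fun i _ => sq_nonneg _
  rcases hs0.eq_or_lt with h0 | hpos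
  · have hv0 : v = 0 := by
      funext i
      have := (Finset.sum_eq_zero_iff_of_nonneg (fun i _ => sq_nonneg (v i))).mp h0.symm i
        (mem_univ i)
      exact pow_eq_zero_iff (two_ne_zero) |>.mp this
    rw [hv0]; simp
  · set r := Real.sqrt (∑ i, v i ^ 2) with hr
    have hr0 : 0 < r := Real.sqrt_pos.mpr hpos
    have hr2 : r ^ 2 = ∑ i, v i ^ 2 := Real.sq_sqrt hs0
    have he : ∑ i, ((r⁻¹ • v) i) ^ 2 = 1 := by
      simp only [Pi.smul_apply, smul_eq_mul, mul_pow]
      rw [← Finset.mul_sum, ← hr2]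
      field_simp
    have hηe : ∑ i, η i * (r⁻¹ • v) i = 0 := by
      have : ∑ i, η i * (r⁻¹ • v) i = r⁻¹ * ∑ i, η i * v i := by
        rw [Finset.mul_sum]
        refine Finset.sum_congr rfl fun i _ => ?_
        simp only [Pi.smul_apply, smul_eq_mul]; ring
      rw [this, hv, mul_zero]
    have h := key_ineq hu hm hη he hηe hc hcη hmax
    rw [← hess_self] at h
    simp only [map_smul, LinearMap.smul_apply, smul_eq_mul] at h
    rw [← hr2]
    have h2 : -(hess u η v v) / c = (-(r⁻¹ * (r⁻¹ * (hess u η v) v)) / c) * r ^ 2 := by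
      field_simp
    rw [h2]
    exact mul_le_mul_of_nonneg_right h (by positivity)

/-- the second derivatives at a point of maximal modulus -/
lemma hess_max (hu : u.IsHomogeneous m) (hm : 2 ≤ m) {c : ℝ} (hc : c ≠ 0)
    (hmax : ∀ x : Fin n → ℝ, ∑ i, x i ^ 2 = 1 → |eval x u| ≤ |c|) {η : Fin n → ℝ}
    (hη : ∑ i, η i ^ 2 = 1) (hcη : eval η u = c) {p : ℝ} (hp : (n : ℝ) ≤ p)
    (hP : PLap p u η) (e : Fin n → ℝ) (he : ∑ i, e i ^ 2 = 1) (hηe : ∑ i, η i * e i = 0) :
    hess u η e e = -(m * (m - 1) * c) := by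
  have hm1 : 1 ≤ m := by omega
  have hmr : (2 : ℝ) ≤ m := by exact_mod_cast hm
  have hgrad := fun i => grad_max hu hm1 hc hmax hη hcη i
  -- `A η = m (m-1) c η`
  have hAη : ∀ i, hess u η (Pi.single i 1) η = m * (m - 1) * c * η i := by
    intro i
    rw [hess_single]
    have := euler2 hu hm1 η i
    rw [hgrad] at this
    rw [← mul_assoc] at this
    have h2 : ∑ j, eval η (pderiv i (pderiv j u)) * η j
        = ∑ j, η j * eval η (pderiv j (pderiv i u)) := by
      refine Finset.sum_congr rfl fun j _ => ?_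
      rw [pderiv_comm' i j]; ring
    rw [h2, this]; ring
  have hvη : ∀ v, hess u η v η = m * (m - 1) * c * ∑ i, v i * η i := by
    intro v
    rw [hess_apply, Finset.mul_sum]
    refine Finset.sum_congr rfl fun i _ => ?_
    have := hAη i
    rw [hess_single] at this
    simp only [mul_assoc]
    rw [← Finset.mul_sum, this]; ring
  have hηη : hess u η η η = m * (m - 1) * c := by
    rw [hvη]
    have : ∑ i, η i * η i = 1 := by rw [← hη]; exact Finset.sum_congr rfl fun i _ => by ring
    rw [this, mul_one]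
  have heη : hess u η e η = 0 := by
    rw [hvη]
    have : ∑ i, e i * η i = 0 := by rw [← hηe]; exact Finset.sum_congr rfl fun i _ => by ring
    rw [this, mul_zero]
  have hηe' : hess u η η e = 0 := by rw [hess_symm, heη]
  -- the trace
  set tr := ∑ i, eval η (pderiv i (pderiv i u)) with htr
  have htrace : tr = -((p - 2) * (m * (m - 1) * c)) := by
    have h1 : ∑ i, (eval η (pderiv i u)) ^ 2 = (m * c) ^ 2 := by
      simp only [hgrad]
      have : ∑ i, ((m : ℝ) * c * η i) ^ 2 = (m * c) ^ 2 * ∑ i, η i ^ 2 := by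
        rw [Finset.mul_sum]; exact Finset.sum_congr rfl fun i _ => by ring
      rw [this, hη, mul_one]
    have h2 : ∑ i, ∑ j, eval η (pderiv i u) * eval η (pderiv j u) *
        eval η (pderiv i (pderiv j u)) = (m * c) ^ 2 * (m * (m - 1) * c) := by
      rw [← hηη, hess_self, Finset.mul_sum]
      refine Finset.sum_congr rfl fun i _ => ?_
      rw [Finset.mul_sum]
      refine Finset.sum_congr rfl fun j _ => ?_
      rw [hgrad, hgrad]; ring
    have hP' := hP
    unfold PLap at hP'
    rw [h1, h2, ← htr] at hP'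
    have h3 : (m * c) ^ 2 * (tr + (p - 2) * (m * (m - 1) * c)) = 0 := by linarith
    have h4 : ((m : ℝ) * c) ^ 2 ≠ 0 := by
      apply pow_ne_zero
      exact mul_ne_zero (by linarith) hc
    have := (mul_eq_zero.mp h3).resolve_left h4
    linarith
  -- the vectors `δ_i - η_i η - e_i e`
  set v : Fin n → Fin n → ℝ := fun i => Pi.single i 1 - η i • η - e i • e with hv
  have hηη' : ∑ i, η i * η i = 1 := by rw [← hη]; exact Finset.sum_congr rfl fun i _ => by ring
  have hvperp : ∀ i, ∑ j, η j * v i j = 0 := by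
    intro i
    have : ∑ j, η j * v i j = ∑ j, η j * (Pi.single i (1 : ℝ) : Fin n → ℝ) j
        - η i * ∑ j, η j * η j - e i * ∑ j, η j * e j := by
      rw [Finset.mul_sum, Finset.mul_sum, ← Finset.sum_sub_distrib, ← Finset.sum_sub_distrib]
      refine Finset.sum_congr rfl fun j _ => ?_
      simp only [hv, Pi.sub_apply, Pi.smul_apply, smul_eq_mul]; ring
    rw [this, hηη', hηe]
    simp [Pi.single_apply]
  have hvnorm : ∀ i, ∑ j, v i j ^ 2 = 1 - η i ^ 2 - e i ^ 2 := by
    intro i
    have : ∑ j, v i j ^ 2 = ∑ j, ((Pi.single i (1 : ℝ) : Fin n → ℝ) j) ^ 2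
        - 2 * η i * ∑ j, (Pi.single i (1 : ℝ) : Fin n → ℝ) j * η j
        - 2 * e i * ∑ j, (Pi.single i (1 : ℝ) : Fin n → ℝ) j * e j
        + η i ^ 2 * ∑ j, η j ^ 2 + 2 * η i * e i * ∑ j, η j * e j + e i ^ 2 * ∑ j, e j ^ 2 := by
      simp only [Finset.mul_sum]
      rw [← Finset.sum_sub_distrib, ← Finset.sum_sub_distrib, ← Finset.sum_add_distrib,
        ← Finset.sum_add_distrib, ← Finset.sum_add_distrib]
      refine Finset.sum_congr rfl fun j _ => ?_
      simp only [hv, Pi.sub_apply, Pi.smul_apply, smul_eq_mul]; ring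
    rw [this, hη, hηe, he]
    simp [Pi.single_apply]
    ring
  have hvhess : ∀ i, hess u η (v i) (v i) = eval η (pderiv i (pderiv i u))
      - m * (m - 1) * c * η i ^ 2 - 2 * e i * hess u η (Pi.single i 1) e
      + e i ^ 2 * hess u η e e := by
    intro i
    have hs : hess u η (Pi.single i 1) (Pi.single i 1) = eval η (pderiv i (pderiv i u)) := by
      rw [hess_single]; simp [Pi.single_apply]
    have e1 : hess u η e (Pi.single i 1) = hess u η (Pi.single i 1) e := hess_symm _ _ _
    have e2 : hess u η η (Pi.single i 1) = m * (m - 1) * c * η i := by rw [hess_symm, hAη]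
    simp only [hv, map_sub, map_smul, LinearMap.sub_apply, LinearMap.smul_apply, smul_eq_mul]
    rw [hs, e1, e2, hAη, hηη, heη, hηe']
    ring
  have hsum := Finset.sum_le_sum (fun i (_ : i ∈ (univ : Finset (Fin n))) =>
    key_ineq' hu hm hc hmax hη hcη (v i) (hvperp i))
  have hL : ∑ i, -(hess u η (v i) (v i)) / c
      = -(tr - m * (m - 1) * c - hess u η e e) / c := by
    rw [← Finset.sum_div]
    congr 1
    rw [Finset.sum_neg_distrib]
    congr 1
    simp only [hvhess]
    rw [Finset.sum_add_distrib, Finset.sum_sub_distrib, Finset.sum_sub_distrib, ← Finset.mul_sum,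
      hη, ← Finset.sum_mul, he]
    have h5 : ∑ i, 2 * e i * hess u η (Pi.single i 1) e = 2 * hess u η e e := by
      rw [hess_apply η e e, Finset.mul_sum]
      refine Finset.sum_congr rfl fun i _ => ?_
      rw [hess_single, Finset.mul_sum, Finset.mul_sum]
      refine Finset.sum_congr rfl fun j _ => ?_
      ring
    rw [h5]
    ring
  have hR : ∑ i, (m : ℝ) * (m - 1) * ∑ j, v i j ^ 2 = m * (m - 1) * (n - 2) := by
    rw [← Finset.mul_sum]
    congr 1
    simp only [hvnorm]
    rw [Finset.sum_sub_distrib, Finset.sum_sub_distrib, hη, he]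
    simp
    ring
  rw [hL, hR, htrace] at hsum
  have h6 := key_ineq' hu hm hc hmax hη hcη e hηe
  rw [he, mul_one] at h6
  set z := hess u η e e / c with hz
  have h7 : -(-((p - 2) * (m * (m - 1) * c)) - m * (m - 1) * c - hess u η e e) / c
      = (p - 2) * (m * (m - 1)) + m * (m - 1) + z := by
    rw [hz]; field_simp; ring
  rw [h7] at hsum
  have h8 : -(hess u η e e) / c = -z := by rw [hz]; ring
  rw [h8] at h6
  have hmm : 0 < (m : ℝ) * (m - 1) := mul_pos (by linarith) (by linarith)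
  have h9 : (m : ℝ) * (m - 1) * n ≤ m * (m - 1) * p := mul_le_mul_of_nonneg_left hp hmm.le
  have h10 : z = -(m * (m - 1)) := by nlinarith
  have h11 : hess u η e e = z * c := by rw [hz]; field_simp
  rw [h11, h10]; ring

end

/-- a unit vector orthogonal to two given vectors -/
lemma exists_orth (hn : 3 ≤ n) (a b : Fin n → ℝ) :
    ∃ e : Fin n → ℝ, ∑ i, e i ^ 2 = 1 ∧ ∑ i, a i * e i = 0 ∧ ∑ i, b i * e i = 0 := by
  let dot : (Fin n → ℝ) → ((Fin n → ℝ) →ₗ[ℝ] ℝ) := fun a =>
    { toFun := fun e => ∑ i, a i * e i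
      map_add' := by
        intro x y
        simp [mul_add, Finset.sum_add_distrib]
      map_smul' := by
        intro r x
        simp only [Pi.smul_apply, smul_eq_mul, RingHom.id_apply, Finset.mul_sum]
        exact Finset.sum_congr rfl fun i _ => by ring }
  let f : (Fin n → ℝ) →ₗ[ℝ] (ℝ × ℝ) := (dot a).prod (dot b)
  have hker : LinearMap.ker f ≠ ⊥ := by
    apply LinearMap.ker_ne_bot_of_finrank_lt
    simp
    omega
  obtain ⟨w, hw, hw0⟩ := (Submodule.ne_bot_iff _).mp hker
  have hfw : f w = 0 := hw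
  have h1 : ∑ i, a i * w i = 0 := congrArg Prod.fst hfw
  have h2 : ∑ i, b i * w i = 0 := congrArg Prod.snd hfw
  have hs0 : 0 ≤ ∑ i, w i ^ 2 := Finset.sum_nonneg fun i _ => sq_nonneg _
  have hpos : 0 < ∑ i, w i ^ 2 := by
    refine lt_of_le_of_ne hs0 ?_
    intro h0
    apply hw0
    funext i
    have := (Finset.sum_eq_zero_iff_of_nonneg (fun i _ => sq_nonneg (w i))).mp h0.symm i
      (mem_univ i)
    exact pow_eq_zero_iff (two_ne_zero) |>.mp this
  set r := Real.sqrt (∑ i, w i ^ 2) with hr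
  have hr0 : 0 < r := Real.sqrt_pos.mpr hpos
  have hr2 : r ^ 2 = ∑ i, w i ^ 2 := Real.sq_sqrt hs0
  refine ⟨fun i => w i / r, ?_, ?_, ?_⟩
  · simp only [div_pow]
    rw [← Finset.sum_div, ← hr2, div_self (by positivity)]
  · have : ∑ i, a i * (w i / r) = (∑ i, a i * w i) / r := by
      rw [Finset.sum_div]; exact Finset.sum_congr rfl fun i _ => by ring
    rw [this, h1, zero_div]
  · have : ∑ i, b i * (w i / r) = (∑ i, b i * w i) / r := by
      rw [Finset.sum_div]; exact Finset.sum_congr rfl fun i _ => by ring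
    rw [this, h2, zero_div]

/-- existence of a point of maximal modulus on the sphere -/
lemma exists_max (hn : 1 ≤ n) {m : ℕ} {u : MvPolynomial (Fin n) ℝ} (hu : u.IsHomogeneous m)
    (hm : 1 ≤ m) (hu0 : u ≠ 0) :
    ∃ η : Fin n → ℝ, ∑ i, η i ^ 2 = 1 ∧ eval η u ≠ 0 ∧
      ∀ x : Fin n → ℝ, ∑ i, x i ^ 2 = 1 → |eval x u| ≤ |eval η u| := by
  set Sp : Set (Fin n → ℝ) := {x | ∑ i, x i ^ 2 = 1} with hSp
  have hclosed : IsClosed Sp := isClosed_eq (by fun_prop) continuous_const
  have hbdd : Bornology.IsBounded Sp := by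
    refine (Metric.isBounded_closedBall (x := (0 : Fin n → ℝ)) (r := 1)).subset ?_
    intro x hx
    rw [Metric.mem_closedBall, dist_zero_right, pi_norm_le_iff_of_nonneg zero_le_one]
    intro i
    have h1 : x i ^ 2 ≤ ∑ j, x j ^ 2 :=
      Finset.single_le_sum (f := fun j => x j ^ 2) (fun j _ => sq_nonneg _) (mem_univ i)
    have hx' : ∑ j, x j ^ 2 = 1 := hx
    rw [hx'] at h1
    rw [Real.norm_eq_abs]
    exact (sq_le_one_iff_abs_le_one _).mp h1
  have hcomp : IsCompact Sp := Metric.isCompact_of_isClosed_isBounded hclosed hbdd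
  have hne : Sp.Nonempty := by
    refine ⟨Pi.single ⟨0, hn⟩ 1, ?_⟩
    show ∑ i, ((Pi.single (⟨0, hn⟩ : Fin n) (1 : ℝ) : Fin n → ℝ) i) ^ 2 = 1
    simp [Pi.single_apply]
  obtain ⟨η, hη, hmax⟩ := hcomp.exists_isMaxOn hne
    (f := fun x => |eval x u|) (MvPolynomial.continuous_eval u).abs.continuousOn
  refine ⟨η, hη, ?_, fun x hx => hmax hx⟩
  intro h0
  apply hu0
  apply MvPolynomial.funext
  intro x
  rw [map_zero]
  have hb := bound_all hu hm (c := 0) (by
    intro y hy
    have := hmax hy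
    simp only [Set.mem_ofPred_eq, h0, abs_zero] at this
    rw [abs_zero]
    exact this) x
  have h1 : (eval x u) ^ 2 ≤ 0 := by simpa using hb
  exact pow_eq_zero_iff (two_ne_zero) |>.mp (le_antisymm h1 (sq_nonneg _))

/-- Main theorem. -/
theorem no_solution (hn : 3 ≤ n) {p : ℝ} (hp : (n : ℝ) ≤ p) {m : ℕ} (hm : 2 ≤ m)
    {u : MvPolynomial (Fin n) ℝ} (hu : u.IsHomogeneous m) (hu0 : u ≠ 0)
    (hP : ∀ x, PLap p u x) : False := by
  have hmr : (2 : ℝ) ≤ m := by exact_mod_cast hm
  obtain ⟨ξ, hξ, hc, hmax⟩ := exists_max (by omega) hu (by omega) hu0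
  set c := eval ξ u with hcdef
  obtain ⟨e, he, hξe, -⟩ := exists_orth hn ξ 0
  obtain ⟨f, hf, hξf, hef⟩ := exists_orth hn ξ e
  set θ := Real.pi / m with hθ
  have hsin : 0 < Real.sin θ := by
    apply Real.sin_pos_of_pos_of_lt_pi
    · exact div_pos Real.pi_pos (by linarith)
    · rw [hθ, div_lt_iff₀ (by linarith)]
      nlinarith [Real.pi_pos]
  -- the small sphere around `ξ`
  let g : ℝ → Fin n → ℝ := fun s i => Real.cos θ * ξ i
    + Real.sin θ * (Real.cos s * e i + Real.sin s * f i)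
  have hcs : ∀ s, Real.cos s ^ 2 + Real.sin s ^ 2 = 1 := Real.cos_sq_add_sin_sq
  have hval : ∀ s, eval (g s) u = -c := by
    intro s
    have hes : ∑ i, (Real.cos s * e i + Real.sin s * f i) ^ 2 = 1 :=
      sphere_comb he hf hef _ _ (hcs s)
    have hξs : ∑ i, ξ i * (Real.cos s * e i + Real.sin s * f i) = 0 := by
      have : ∑ i, ξ i * (Real.cos s * e i + Real.sin s * f i)
          = Real.cos s * ∑ i, ξ i * e i + Real.sin s * ∑ i, ξ i * f i := by
        rw [Finset.mul_sum, Finset.mul_sum, ← Finset.sum_add_distrib]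
        exact Finset.sum_congr rfl fun i _ => by ring
      rw [this, hξe, hξf]; ring
    have hh := hess_max hu hm hc hmax hξ rfl hp (hP ξ) _ hes hξs
    rw [hess_self] at hh
    exact key_eq hu hm hξ hes hξs hc rfl hmax hh
  -- first derivative
  have hg : ∀ s i, HasDerivAt (fun t => g t i)
      (Real.sin θ * (-Real.sin s * e i + Real.cos s * f i)) s := by
    intro s i
    have h1 := ((Real.hasDerivAt_cos s).mul_const (e i)).add
      ((Real.hasDerivAt_sin s).mul_const (f i))
    exact (h1.const_mul (Real.sin θ)).const_add (Real.cos θ * ξ i)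
  have hD1 : ∀ s, ∑ i, (Real.sin θ * (-Real.sin s * e i + Real.cos s * f i)) *
      eval (g s) (pderiv i u) = 0 := by
    intro s
    have h1 := hasDerivAt_eval u (hg s)
    have h2 : (fun t => eval (g t) u) = fun _ => -c := by funext t; exact hval t
    rw [h2] at h1
    exact h1.unique (hasDerivAt_const s (-c))
  -- second derivative at `0`
  have hD2 : ∑ i, ((Real.sin θ * (-e i)) * eval (g 0) (pderiv i u)
      + (Real.sin θ * f i) * ∑ j, (Real.sin θ * f j) * eval (g 0) (pderiv j (pderiv i u))) = 0 := by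
    have h1 : HasDerivAt (fun s => ∑ i, (Real.sin θ * (-Real.sin s * e i + Real.cos s * f i)) *
        eval (g s) (pderiv i u))
        (∑ i, ((Real.sin θ * (-Real.cos 0 * e i + -Real.sin 0 * f i)) * eval (g 0) (pderiv i u)
          + (Real.sin θ * (-Real.sin 0 * e i + Real.cos 0 * f i)) *
            ∑ j, (Real.sin θ * (-Real.sin 0 * e j + Real.cos 0 * f j)) *
              eval (g 0) (pderiv j (pderiv i u)))) 0 := by
      apply HasDerivAt.fun_sum
      intro i _
      have h3 : HasDerivAt (fun s => Real.sin θ * (-Real.sin s * e i + Real.cos s * f i))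
          (Real.sin θ * (-Real.cos 0 * e i + -Real.sin 0 * f i)) 0 :=
        (((Real.hasDerivAt_sin 0).neg.mul_const (e i)).add
          ((Real.hasDerivAt_cos 0).mul_const (f i))).const_mul (Real.sin θ)
      exact h3.mul (hasDerivAt_eval (pderiv i u) (hg 0))
    have h2 : (fun s => ∑ i, (Real.sin θ * (-Real.sin s * e i + Real.cos s * f i)) *
        eval (g s) (pderiv i u)) = fun _ => (0 : ℝ) := by funext s; exact hD1 s
    rw [h2] at h1
    have h3 := h1.unique (hasDerivAt_const (0 : ℝ) (0 : ℝ))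
    refine Eq.trans ?_ h3
    refine Finset.sum_congr rfl fun i _ => ?_
    simp
  -- the point `g 0`
  set ζ := g 0 with hζ
  have hζi : ∀ i, ζ i = Real.cos θ * ξ i + Real.sin θ * e i := by
    intro i
    show Real.cos θ * ξ i + Real.sin θ * (Real.cos 0 * e i + Real.sin 0 * f i) = _
    rw [Real.cos_zero, Real.sin_zero]; ring
  have hζ1 : ∑ i, ζ i ^ 2 = 1 := by
    simp only [hζi]
    exact sphere_comb hξ he hξe _ _ (hcs θ)
  have hζf : ∑ i, ζ i * f i = 0 := by
    have : ∑ i, ζ i * f i = Real.cos θ * ∑ i, ξ i * f i + Real.sin θ * ∑ i, e i * f i := by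
      rw [Finset.mul_sum, Finset.mul_sum, ← Finset.sum_add_distrib]
      exact Finset.sum_congr rfl fun i _ => by rw [hζi]; ring
    rw [this, hξf, hef]; ring
  have hζe : ∑ i, ζ i * e i = Real.sin θ := by
    have : ∑ i, ζ i * e i = Real.cos θ * ∑ i, ξ i * e i + Real.sin θ * ∑ i, e i ^ 2 := by
      rw [Finset.mul_sum, Finset.mul_sum, ← Finset.sum_add_distrib]
      exact Finset.sum_congr rfl fun i _ => by rw [hζi]; ring
    rw [this, hξe, he]; ring
  have hc' : -c ≠ 0 := neg_ne_zero.mpr hc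
  have hmax' : ∀ x : Fin n → ℝ, ∑ i, x i ^ 2 = 1 → |eval x u| ≤ |-c| := by
    intro x hx
    rw [abs_neg]
    exact hmax x hx
  have hζv : eval ζ u = -c := hval 0
  have hgr := fun i => grad_max hu (by omega) hc' hmax' hζ1 hζv i
  have hhf := hess_max hu hm hc' hmax' hζ1 hζv hp (hP ζ) f hf hζf
  rw [Finset.sum_add_distrib] at hD2
  have s1 : ∑ i, (Real.sin θ * (-e i)) * eval ζ (pderiv i u)
      = Real.sin θ * (m * c * Real.sin θ) := by
    simp only [hgr]
    have : ∑ i, (Real.sin θ * (-e i)) * (m * (-c) * ζ i)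
        = Real.sin θ * (m * c) * ∑ i, ζ i * e i := by
      rw [Finset.mul_sum]
      exact Finset.sum_congr rfl fun i _ => by ring
    rw [this, hζe]; ring
  have s2 : ∑ i, (Real.sin θ * f i) * ∑ j, (Real.sin θ * f j) * eval ζ (pderiv j (pderiv i u))
      = Real.sin θ ^ 2 * hess u ζ f f := by
    rw [hess_self, Finset.mul_sum]
    refine Finset.sum_congr rfl fun i _ => ?_
    rw [Finset.mul_sum, Finset.mul_sum]
    refine Finset.sum_congr rfl fun j _ => ?_
    rw [pderiv_comm' j i]; ring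
  rw [s1, s2, hhf] at hD2
  have hfin : Real.sin θ ^ 2 * ((m : ℝ) ^ 2 * c) = 0 := by nlinarith
  have h1 : Real.sin θ ^ 2 ≠ 0 := pow_ne_zero _ hsin.ne'
  have h2 : (m : ℝ) ^ 2 * c ≠ 0 := mul_ne_zero (pow_ne_zero _ (by linarith)) hc
  exact (mul_ne_zero h1 h2) hfin

end Pool.Agent.Helper456.PL
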